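import Pool.Agent.H781.CM.QFin
import Pool.Agent.H781.CM.Om
import Pool.Agent.H781.CM.Wed

/-!
MP_713680_gt, Q1: there is a closed manifold that admits almost nonnegative sectional curvature
(even a metric of nonnegative sectional curvature) but does not admit almost nonnegative curvature
operator.

The manifold is `Q.M`, the quotient of `S³ × S³` by a free isometric action of the torus `T²`
(`Pool/Agent/H781/CM/Q0.lean`), realised as a submanifold of `ℝ² × ℂ⁴` by invariant polynomials; it
is diffeomorphic to `CP² # CP²`.

Definitions (`Pool/Agent/H781/CM/FDefs.lean` and `FDefs2.lean`): `SecGE g c`: all sectional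
curvatures are at least `c`; `AdmitsANSC`: for every `ε > 0` there is a metric with diameter at most
`1` and sectional curvature at least `-ε`; `AdmitsANCO (𝓡 n) M n`: for every `ε > 0` there is a
metric with diameter at most `1` all of whose curvature operator eigenvalues are at least `-ε`.

Proof. (1) By O'Neill's formula the quotient metric has nonnegative sectional curvature. (2) `M` is
oriented, `b_1(M) = 0`, `b_2(M) = 2`, and the intersection form is definite. Suppose that `M` admits
almost nonnegative curvature operator. For a metric with curvature operator `≥ -ε`, diameter `≤ 1`
and `ε` small the eigenforms with small eigenvalue of the Hodge Laplacian are nearly parallel; the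
Clifford product of two orthogonal self-dual harmonic 2-forms is, after truncation, close to a third
self-dual eigenform with small eigenvalue; if it is not harmonic, its differential or codifferential
is a small eigenform of odd degree, which forces the Euler characteristic to vanish, and it cannot be
harmonic as `b_2 = 2`. But `χ(M) = 4`.
-/

set_option autoImplicit false

open Bundle Manifold ContDiff

noncomputable section

namespace Pool.Agent.Results.MP_713680_gt.SectionalVersusOperator

open Pool.Agent.H781.CM Pool.Agent.H781.CM.F

/-- There is a closed connected (4-)manifold which has a metric of nonnegative sectional curvature,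
so it admits almost nonnegative sectional curvature, and which does not admit almost nonnegative
curvature operator. -/
theorem result : ∃ (M : Type) (_ : TopologicalSpace M) (_ : T2Space M) (_ : CompactSpace M)
    (_ : ConnectedSpace M) (_ : ChartedSpace (EuclideanSpace ℝ (Fin 4)) M)
    (_ : IsManifold (𝓡 4) ∞ M),
    (∃ g : ContMDiffRiemannianMetric (𝓡 4) ∞ (EuclideanSpace ℝ (Fin 4))
      (fun x : M => TangentSpace (𝓡 4) x), SecGE g 0) ∧
    F.AdmitsANSC (𝓡 4) M ∧ ¬ F.AdmitsANCO (𝓡 4) M 4 :=
  ⟨Q.M, inferInstance, inferInstance, inferInstance, inferInstance, inferInstance, inferInstance,
    Q.main_q Q.s_om Q.s_wed⟩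

end Pool.Agent.Results.MP_713680_gt.SectionalVersusOperator
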